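import Pool.Agent.Helper14.BSC.Stmts2

/-!
# MP_8312c9_nt, module N3: interpolation and trace duality
-/

set_option autoImplicit false

namespace Pool.Agent.Helper14.BSC

open Polynomial

theorem n3_interp {F L : Type} [Field F] [Field L] (j : F →+* L) (n : ℕ) (Q : L[X])
    (hQ : Q.natDegree ≤ n) (S : Finset F) (hS : n < S.card) (v : F → F)
    (hv : ∀ a ∈ S, Q.eval (j a) = j (v a)) : ∃ R : F[X], R.map j = Q := by
  classical
  refine ⟨Lagrange.interpolate S id v, ?_⟩
  have hdeg : Q.degree < (S.card : WithBot ℕ) := by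
    calc Q.degree ≤ (Q.natDegree : WithBot ℕ) := Polynomial.degree_le_natDegree
      _ ≤ (n : WithBot ℕ) := by exact_mod_cast hQ
      _ < _ := by exact_mod_cast hS
  apply Polynomial.eq_of_degrees_lt_of_eval_index_eq S (v := fun a => j a)
  · intro a _ b _ h; exact j.injective h
  · rw [Polynomial.degree_map]
    exact Lagrange.degree_interpolate_lt _ (Set.injOn_id _)
  · exact hdeg
  · intro a ha
    rw [hv a ha, Polynomial.eval_map, Polynomial.eval₂_hom]
    congr 1
    exact Lagrange.eval_interpolate_at_node (v := id) v (Set.injOn_id _) ha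

theorem n3_dual (k₁ k : Type) [Field k₁] [Field k] [CharZero k] [Algebra k₁ k]
    [FiniteDimensional k₁ k] (β : k →ₗ[k₁] k₁) : ∃ z : k, ∀ b : k, β b = Algebra.trace k₁ k (z * b) := by
  have h0 : CharZero k₁ := (RingHom.charZero_iff (algebraMap k₁ k).injective).2 inferInstance
  have hB := traceForm_nondegenerate k₁ k
  refine ⟨(LinearMap.BilinForm.toDual _ hB).symm β, ?_⟩
  intro b
  have h := LinearMap.BilinForm.apply_toDual_symm_apply (hB := hB) β b
  rw [Algebra.traceForm_apply] at h
  exact h.symm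

/-- the values of `g` shifted by constants -/
theorem n3_val {k Ω : Type} [Field k] [Field Ω] [Algebra k Ω] {D : Sec k Ω} {p : ℕ} [Fact p.Prime]
    {σ : k →+* ℂ_[p]} (P : Place D p σ) (g : LL D) (hg : g ∈ P.C) (b a : k) :
    ∃ h : algebraMap k (LL D) b * g - algebraMap k (LL D) a ∈ P.C,
      P.φ ⟨_, h⟩ = σ b * P.φ ⟨g, hg⟩ - σ a := by
  obtain ⟨hb, hb'⟩ := P.base b
  obtain ⟨ha, ha'⟩ := P.base a
  refine ⟨sub_mem (mul_mem hb hg) ha, ?_⟩
  rw [← hb', ← ha', ← map_mul, ← map_sub]
  rfl

theorem st_N3 (hN : ST_N1) : ST_N3 := by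
  intro k Ω _ _ _ _ _ D k₁ _ _ _ p _ T P g hNR hg
  classical
  have h0 : CharZero k₁ := (RingHom.charZero_iff (algebraMap k₁ k).injective).2 inferInstance
  set z : Fin T.n → ℂ_[p] := fun i => (P i).φ ⟨g, hg i⟩ with hz
  have hj : Function.Injective T.j := T.j.injective
  -- values of the polynomial at almost all `a`
  have hval : ∀ b : k, ∃ c : k₁, ∑ i, T.σ i b * z i = T.j c := by
    intro b
    by_cases hb : b = 0
    · refine ⟨0, ?_⟩
      rw [hb]
      simp
    set Q : (ℂ_[p])[X] := ∏ i : Fin T.n, (X - C (T.σ i b * z i)) with hQ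
    have hQdeg : Q.natDegree ≤ T.n := by
      rw [hQ, Polynomial.natDegree_prod_of_monic _ _ (fun i _ => Polynomial.monic_X_sub_C _)]
      simp only [Polynomial.natDegree_X_sub_C, Finset.sum_const, Finset.card_univ,
        Fintype.card_fin, smul_eq_mul, mul_one]
      exact le_rfl
    have hbad2 : {a : k₁ | ∃ i, T.σ i b * z i = T.j a}.Finite := by
      have : {a : k₁ | ∃ i, T.σ i b * z i = T.j a} = ⋃ i, {a : k₁ | T.σ i b * z i = T.j a} := by
        ext a; simp
      rw [this]
      apply Set.finite_iUnion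
      intro i
      apply Set.Subsingleton.finite
      intro a ha a' ha'
      exact hj (ha.symm.trans ha')
    have hbad := (hNR b hb).union hbad2
    obtain ⟨S, hS, hScard⟩ := (Set.Infinite.exists_subset_card_eq
      (hbad.infinite_compl) (T.n + 1))
    have hgood : ∀ a ∈ S, ∃ c : k₁, Q.eval (T.j a) = T.j c := by
      intro a ha
      have h1 := hS ha
      rw [Set.mem_compl_iff, Set.mem_union, not_or] at h1
      obtain ⟨h2, h3⟩ := h1
      rw [Set.mem_ofPred_eq, not_not] at h2
      obtain ⟨r, hr, hrr⟩ := h2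
      choose hx hx' using fun i => n3_val (P i) g (hg i) b (algebraMap k₁ k a)
      have h4 : ∀ i, (P i).φ ⟨_, hx i⟩ = T.σ i b * z i - T.j a := by
        intro i; rw [hx' i, T.res]
      have h5 : ∀ i, (P i).φ ⟨_, hx i⟩ ≠ 0 := by
        intro i h
        rw [h4 i] at h
        exact h3 ⟨i, sub_eq_zero.1 h⟩
      have h6 := hN k Ω D k₁ p T P _ r hr hrr hx h5
      refine ⟨(-1) ^ T.n * r, ?_⟩
      rw [map_mul, map_pow, map_neg, map_one, ← h6, hQ, Polynomial.eval_prod]
      have h7 : ∀ i : Fin T.n, Polynomial.eval (T.j a) (X - C (T.σ i b * z i)) =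
          (-1) * (P i).φ ⟨_, hx i⟩ := by
        intro i
        rw [h4 i, Polynomial.eval_sub, Polynomial.eval_X, Polynomial.eval_C]
        ring
      rw [Finset.prod_congr rfl (fun i _ => h7 i), Finset.prod_mul_distrib, Finset.prod_const,
        Finset.card_univ, Fintype.card_fin]
    choose! v hv using hgood
    obtain ⟨R, hR⟩ := n3_interp T.j T.n Q hQdeg S (by omega) v hv
    have hcoef := Polynomial.prod_X_sub_C_coeff_card_pred (Finset.univ : Finset (Fin T.n))
      (fun i => T.σ i b * z i) (by rw [Finset.card_univ, Fintype.card_fin]; exact T.pos)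
    rw [← hQ, ← hR, Polynomial.coeff_map] at hcoef
    refine ⟨-(R.coeff ((Finset.univ : Finset (Fin T.n)).card - 1)), ?_⟩
    rw [map_neg, hcoef, neg_neg]
  choose β hβ using hval
  let βl : k →ₗ[k₁] k₁ :=
    { toFun := β
      map_add' := by
        intro x y
        apply hj
        rw [map_add, ← hβ, ← hβ, ← hβ, ← Finset.sum_add_distrib]
        apply Finset.sum_congr rfl
        intro i _
        rw [map_add, add_mul]
      map_smul' := by
        intro a x
        apply hj
        rw [RingHom.id_apply, smul_eq_mul, map_mul, ← hβ, ← hβ, Finset.mul_sum]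
        apply Finset.sum_congr rfl
        intro i _
        rw [Algebra.smul_def, map_mul, T.res, mul_assoc] }
  obtain ⟨y, hy⟩ := n3_dual k₁ k βl
  refine ⟨y, ?_⟩
  have hind : (fun i => z i - T.σ i y) = 0 := by
    apply T.indep
    intro b
    have h1 : ∑ i, T.σ i b * (z i - T.σ i y) = ∑ i, T.σ i b * z i - ∑ i, T.σ i (y * b) := by
      rw [← Finset.sum_sub_distrib]
      apply Finset.sum_congr rfl
      intro i _
      rw [map_mul]
      ring
    rw [h1, hβ, T.trace, ← hy b]
    exact sub_self _
  intro i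
  have h2 := congrFun hind i
  exact sub_eq_zero.1 h2

end Pool.Agent.Helper14.BSC
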