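import Pool.Agent.Helper14.BSC.Stmts

/-!
# MP_8312c9_nt, module RES: residues of fixed elements
-/

set_option autoImplicit false

namespace Pool.Agent.Helper14.BSC

open Polynomial

variable {k Ω : Type} [Field k] [Field Ω] [Algebra k Ω]

theorem res_vk (W : ValuationSubring Ω) (hk : ∀ c : k, algebraMap k Ω c ∈ W) (c : k) (hc : c ≠ 0) :
    W.valuation (algebraMap k Ω c) = 1 := by
  apply le_antisymm
  · exact (W.valuation_le_one_iff _).2 (hk c)
  · have h1 : W.valuation (algebraMap k Ω c⁻¹) ≤ 1 := (W.valuation_le_one_iff _).2 (hk _)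
    have h2 : algebraMap k Ω c ≠ 0 := (_root_.map_ne_zero _).2 hc
    have h3 : W.valuation (algebraMap k Ω c) ≠ 0 := (_root_.map_ne_zero _).2 h2
    rw [map_inv₀, map_inv₀] at h1
    exact (inv_le_one₀ (zero_lt_iff.2 h3)).1 h1

theorem res_valg (W : ValuationSubring Ω) (hk : ∀ c : k, algebraMap k Ω c ∈ W) (a : Ω)
    (ha : IsAlgebraic k a) : a ∈ W := by
  have h1 : IsIntegral k a := ha.isIntegral
  obtain ⟨P, hP, hPa⟩ := h1
  let φ : k →+* W := (algebraMap k Ω).codRestrict W.toSubring hk
  have h2 : IsIntegral W a := by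
    refine ⟨P.map φ, hP.map φ, ?_⟩
    rw [Polynomial.eval₂_map]
    exact hPa
  obtain ⟨y, hy⟩ := IsIntegrallyClosed.isIntegral_iff.1 h2
  rw [← hy]
  exact y.2

theorem res_valg1 (W : ValuationSubring Ω) (hk : ∀ c : k, algebraMap k Ω c ∈ W) (a : Ω)
    (ha : IsAlgebraic k a) (ha0 : a ≠ 0) : W.valuation a = 1 := by
  apply le_antisymm
  · exact (W.valuation_le_one_iff _).2 (res_valg W hk a ha)
  · have h1 : W.valuation a⁻¹ ≤ 1 := (W.valuation_le_one_iff _).2 (res_valg W hk _ ha.inv)
    have h3 : W.valuation a ≠ 0 := (_root_.map_ne_zero _).2 ha0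
    rw [map_inv₀] at h1
    exact (inv_le_one₀ (zero_lt_iff.2 h3)).1 h1

theorem res_inv (D : Sec k Ω) (W : ValuationSubring Ω)
    (hinv : ∀ (g : GG k Ω) (x : Ω), (D.s g x ∈ W ↔ x ∈ W)) (g : GG k Ω) (x : Ω)
    (hx : W.valuation x < 1) : W.valuation (D.s g x) < 1 := by
  rw [← ValuationSubring.mem_nonunits_iff, ValuationSubring.mem_nonunits_iff_or] at hx ⊢
  rcases hx with hx | hx
  · left; rw [hx, map_zero]
  · right
    rw [← map_inv₀, hinv g]
    exact hx

theorem res_prod (W : ValuationSubring Ω) (x : Ω) (s : Multiset Ω)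
    (h : W.valuation ((s.map fun a => x - a).prod) < 1) : ∃ a ∈ s, W.valuation (x - a) < 1 := by
  induction s using Multiset.induction_on with
  | empty => simp at h
  | cons a s ih =>
    by_cases h1 : W.valuation (x - a) < 1
    · exact ⟨a, Multiset.mem_cons_self _ _, h1⟩
    · rw [Multiset.map_cons, Multiset.prod_cons, map_mul] at h
      have h2 : W.valuation ((s.map fun a => x - a).prod) < 1 := by
        by_contra h3
        have h4 : (1 : W.ValueGroup) ≤ W.valuation (x - a) * W.valuation ((s.map fun a => x - a).prod) := by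
          calc (1 : W.ValueGroup) = 1 * 1 := (one_mul 1).symm
            _ ≤ _ := mul_le_mul' (not_lt.1 h1) (not_lt.1 h3)
        exact absurd h (not_lt.2 h4)
      obtain ⟨b, hb, hb1⟩ := ih h2
      exact ⟨b, Multiset.mem_cons_of_mem hb, hb1⟩

theorem res_root [IsAlgClosed Ω] (W : ValuationSubring Ω) (hk : ∀ c : k, algebraMap k Ω c ∈ W)
    (x : Ω) (g : k[X]) (hg : g ≠ 0) (hgx : W.valuation (aeval x g) < 1) :
    ∃ a : Acl k Ω, W.valuation (x - (a : Ω)) < 1 := by
  have hs : (g.map (algebraMap k Ω)).Splits := IsAlgClosed.splits _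
  have h1 := hs.eval_eq_prod_roots x
  rw [Polynomial.eval_map_algebraMap] at h1
  rw [h1, map_mul, Polynomial.leadingCoeff_map, res_vk W hk _ (leadingCoeff_ne_zero.2 hg),
    one_mul] at hgx
  obtain ⟨a, ha, ha1⟩ := res_prod W x _ hgx
  have h2 : IsAlgebraic k a := by
    refine ⟨g, hg, ?_⟩
    have h3 := (Polynomial.mem_roots'.1 ha).2
    rw [Polynomial.IsRoot.def, Polynomial.eval_map_algebraMap] at h3
    exact h3
  exact ⟨⟨a, (mem_algebraicClosure_iff).2 h2⟩, ha1⟩

theorem res_red (K : Type) [Field K] [Algebra k K] [Algebra K Ω] [IsScalarTower k K Ω]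
    (W : ValuationSubring Ω)
    (hres : ∀ a : K, algebraMap K Ω a ∈ W →
      ∃ c : k, W.valuation (algebraMap K Ω a - algebraMap k Ω c) < 1)
    (x : Ω) (hx : x ∈ W) (hax : IsAlgebraic K x) :
    ∃ g : k[X], g ≠ 0 ∧ W.valuation (aeval x g) < 1 := by
  obtain ⟨f, hf, hfx⟩ := hax
  have hne : f.support.Nonempty := Polynomial.support_nonempty.2 hf
  obtain ⟨i0, hi0, hmax⟩ := f.support.exists_max_image
    (fun i => W.valuation (algebraMap K Ω (f.coeff i))) hne
  have hc0 : f.coeff i0 ≠ 0 := Polynomial.mem_support_iff.1 hi0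
  set b : ℕ → K := fun i => f.coeff i / f.coeff i0 with hb
  have hv0 : W.valuation (algebraMap K Ω (f.coeff i0)) ≠ 0 :=
    (_root_.map_ne_zero _).2 ((_root_.map_ne_zero _).2 hc0)
  have hbW : ∀ i, algebraMap K Ω (b i) ∈ W := by
    intro i
    rw [← ValuationSubring.valuation_le_one_iff, hb]
    simp only [map_div₀]
    by_cases hi : i ∈ f.support
    · exact (div_le_one₀ (zero_lt_iff.2 hv0)).2 (hmax i hi)
    · rw [Polynomial.notMem_support_iff.1 hi]
      simp
  choose c hc using fun i => hres (b i) (hbW i)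
  have hb0 : b i0 = 1 := div_self hc0
  have hci0 : c i0 ≠ 0 := by
    intro h
    have := hc i0
    rw [hb0, h] at this
    simp at this
  refine ⟨∑ i ∈ f.support, Polynomial.monomial i (c i), ?_, ?_⟩
  · intro h
    have h1 := congrArg (fun q => Polynomial.coeff q i0) h
    simp only [Polynomial.finsetSum_coeff, Polynomial.coeff_monomial, Polynomial.coeff_zero] at h1
    rw [Finset.sum_ite_eq' f.support i0 c, if_pos hi0] at h1
    exact hci0 h1
  · have h0 : ∑ i ∈ f.support, algebraMap K Ω (b i) * x ^ i = 0 := by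
      rw [Polynomial.aeval_eq_sum_range' (n := f.natDegree + 1) (Nat.lt_succ_self _)] at hfx
      have h1 : ∑ i ∈ f.support, algebraMap K Ω (f.coeff i) * x ^ i = 0 := by
        rw [← hfx]
        have hsub : f.support ⊆ Finset.range (f.natDegree + 1) :=
          Polynomial.supp_subset_range_natDegree_succ
        rw [← Finset.sum_subset hsub]
        · apply Finset.sum_congr rfl
          intro i _
          rw [Algebra.smul_def]
        · intro i _ hi
          rw [Polynomial.notMem_support_iff.1 hi, zero_smul]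
      have h2 : ∑ i ∈ f.support, algebraMap K Ω (b i) * x ^ i =
          (algebraMap K Ω (f.coeff i0))⁻¹ * ∑ i ∈ f.support, algebraMap K Ω (f.coeff i) * x ^ i := by
        rw [Finset.mul_sum]
        apply Finset.sum_congr rfl
        intro i _
        rw [hb]
        simp only [map_div₀]
        ring
      rw [h2, h1, mul_zero]
    have h3 : aeval x (∑ i ∈ f.support, Polynomial.monomial i (c i)) =
        ∑ i ∈ f.support, -((algebraMap K Ω (b i) - algebraMap k Ω (c i)) * x ^ i) := by
      rw [map_sum]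
      have h4 : ∑ i ∈ f.support, -((algebraMap K Ω (b i) - algebraMap k Ω (c i)) * x ^ i) =
          ∑ i ∈ f.support, algebraMap k Ω (c i) * x ^ i -
            ∑ i ∈ f.support, algebraMap K Ω (b i) * x ^ i := by
        rw [← Finset.sum_sub_distrib]
        apply Finset.sum_congr rfl
        intro i _
        ring
      rw [h4, h0, sub_zero]
      apply Finset.sum_congr rfl
      intro i _
      rw [Polynomial.aeval_monomial]
    rw [h3]
    apply Valuation.map_sum_lt _ one_ne_zero
    intro i _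
    rw [Valuation.map_neg, map_mul, map_pow]
    have h5 : W.valuation x ≤ 1 := (W.valuation_le_one_iff _).2 hx
    calc W.valuation (algebraMap K Ω (b i) - algebraMap k Ω (c i)) * W.valuation x ^ i
        ≤ W.valuation (algebraMap K Ω (b i) - algebraMap k Ω (c i)) * 1 :=
          mul_le_mul' le_rfl (pow_le_one₀ zero_le h5)
      _ < 1 := by rw [mul_one]; exact hc i

theorem st_RES (hB : ST_BOT) : ST_RES := by
  intro k Ω _ _ _ _ _ D K _ _ _ _ _ W hk hinv hres x hx
  obtain ⟨f, hf, hfx⟩ := res_red K W hres (x : Ω) hx (Algebra.IsAlgebraic.isAlgebraic _)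
  obtain ⟨a, ha⟩ := res_root W hk (x : Ω) f hf hfx
  have hfix : a ∈ FF (∅ : Set (Acl k Ω)) := by
    intro g _
    by_contra hne
    have h1 := res_inv D W hinv g _ ha
    have h2 : D.s g (x : Ω) = x := x.2 g (by intro b hb; exact absurd hb (Set.notMem_empty b))
    rw [map_sub, h2, D.ext g a] at h1
    have h3 : W.valuation (((g a : Acl k Ω) : Ω) - (a : Ω)) < 1 := by
      have h4 : ((g a : Acl k Ω) : Ω) - (a : Ω) = ((x : Ω) - a) - ((x : Ω) - ((g a : Acl k Ω) : Ω)) := by
        ring
      rw [h4]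
      exact (Valuation.map_sub _ _ _).trans_lt (max_lt ha h1)
    have h5 : ((g a : Acl k Ω) : Ω) - (a : Ω) = ((g a - a : Acl k Ω) : Ω) := rfl
    rw [h5] at h3
    have h6 : IsAlgebraic k ((g a - a : Acl k Ω) : Ω) := mem_algebraicClosure_iff.1 (g a - a).2
    have h7 : ((g a - a : Acl k Ω) : Ω) ≠ 0 := by
      intro h8
      apply hne
      have h9 : g a - a = 0 := Subtype.ext h8
      exact sub_eq_zero.1 h9
    rw [res_valg1 W hk _ h6 h7] at h3
    exact lt_irrefl _ h3
  obtain ⟨c, hc⟩ := hB k Ω a hfix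
  refine ⟨c, ?_⟩
  rw [hc] at ha
  exact ha

end Pool.Agent.Helper14.BSC
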